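import Pool.Agent.H93.HQ.Targets

namespace Pool.Agent.H60.HQ
open MeasureTheory Set Filter Topology Pool.Agent.H80.HS Pool.Agent.H93.HQ
open scoped ContDiff ENNReal

lemma periodic_shift (h : ℝ → ℝ≥0∞) (T : ℝ) (hT : 0 < T) (hh : Function.Periodic h T) (c : ℝ) :
    ∫⁻ φ in Ioc 0 T, h (c + φ) = ∫⁻ φ in Ioc 0 T, h φ := by
  have h1 : ∫⁻ φ in Ioc 0 T, h (c + φ) = ∫⁻ φ in Ioc c (c + T), h φ := by
    have h2 := (measurePreserving_add_left (volume : Measure ℝ) c).setLIntegral_comp_preimage_emb
      (measurableEmbedding_addLeft c) h (Ioc c (c + T))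
    rw [← h2]
    congr 2
    ext x
    simp
  rw [h1]
  have h3 := (isAddFundamentalDomain_Ioc hT c (μ := volume)).setLIntegral_eq
    (isAddFundamentalDomain_Ioc hT 0 (μ := volume)) h (by
      rintro ⟨g, hg⟩ x
      obtain ⟨k, rfl⟩ := AddSubgroup.mem_zmultiples_iff.1 hg
      have h4 := hh.zsmul k x
      simp only [AddSubgroup.vadd_def, vadd_eq_add]
      rw [add_comm]
      exact h4)
  rw [h3]
  simp

lemma meas_rot_gen {n : ℕ} {α : Type*} [MeasurableSpace α] {c : α → ℝ} {g : α → H n}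
    (hc : Measurable c) (hg : Measurable g) : Measurable (fun x => rot (c x) (g x)) := by
  have h1 : Measurable (fun q : ℝ × H n => rot q.1 q.2) := continuous_rot'.measurable
  have h2 : Measurable (fun x => (c x, g x)) := hc.prodMk hg
  have h3 := h1.comp h2
  simpa only [Function.comp_def] using h3

lemma meas_rot {n : ℕ} {c : H n → ℝ} (hc : Measurable c) : Measurable (fun x => rot (c x) x) :=
  meas_rot_gen hc measurable_id

lemma key (h : U_ROT) (n : ℕ) (W G : H n → ℝ≥0∞) (c : H n → ℝ) (hW : Measurable W)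
    (hG : Measurable G) (hc : Measurable c) (hWr : ∀ θ x, W (rot θ x) = W x)
    (hcr : ∀ θ x, c (rot θ x) = c x) :
    (∫⁻ x, W x * G (rot (c x) x)) * ENNReal.ofReal (2 * Real.pi) =
      ∫⁻ x, W x * ∫⁻ φ in Ioc 0 (2 * Real.pi), G (rot φ x) := by
  have h2 : ∀ φ : ℝ, ∫⁻ x, W x * G (rot (c x + φ) x) = ∫⁻ x, W x * G (rot (c x) x) := by
    intro φ
    rw [← h n (fun x => W x * G (rot (c x) x)) φ (hW.mul (hG.comp (meas_rot hc)))]
    refine lintegral_congr fun x => ?_
    simp only [hWr, hcr, rot_add]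
  have h3 : (∫⁻ x, W x * G (rot (c x) x)) * ENNReal.ofReal (2 * Real.pi) =
      ∫⁻ φ in Ioc 0 (2 * Real.pi), ∫⁻ x, W x * G (rot (c x + φ) x) := by
    simp only [h2]
    rw [setLIntegral_const, Real.volume_Ioc, sub_zero]
  rw [h3]
  have hm : Measurable (fun q : ℝ × H n => rot (c q.2 + q.1) q.2) :=
    meas_rot_gen ((hc.comp measurable_snd).add measurable_fst) measurable_snd
  rw [lintegral_lintegral_swap]
  · refine lintegral_congr fun x => ?_
    have hm2 : Measurable (fun φ : ℝ => rot (c x + φ) x) :=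
      meas_rot_gen (measurable_const.add measurable_id) measurable_const
    have hm3 : Measurable (fun φ : ℝ => G (rot (c x + φ) x)) := hG.comp hm2
    rw [lintegral_const_mul _ hm3]
    congr 1
    exact periodic_shift (fun φ => G (rot φ x)) (2 * Real.pi) (by positivity)
      (fun φ => by simp only [rot_two_pi]) (c x)
  · exact ((hW.comp measurable_snd).mul (hG.comp hm)).aemeasurable

theorem pf_AV (h : U_ROT) : U_AV := by
  intro n W G c hW hG hc hWr hcr
  have h1 := key h n W G c hW hG hc hWr hcr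
  have h2 := key h n W G (fun _ => 0) hW hG measurable_const hWr (fun _ _ => rfl)
  simp only [rot_zero] at h2
  rw [← h2] at h1
  have h3 : ENNReal.ofReal (2 * Real.pi) ≠ 0 := by
    simp only [ne_eq, ENNReal.ofReal_eq_zero, not_le]
    positivity
  exact (ENNReal.mul_left_inj h3 ENNReal.ofReal_ne_top).1 h1

end Pool.Agent.H60.HQ
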